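import Mathlib
import Pool.Agent.V11152.ProjGeom3

/-!
# Finite projective geometries of rank at least three are indecomposable

`IsMatroid`, `indic`, `poly` and `IsMatroidSubdivision` are defined in
`Pool.Agent.V11152.MatroidSubdiv`:

* `IsMatroid N` : the finite family `N` of finite sets is nonempty and satisfies basis exchange;
* `poly N` : the matroid polytope, the convex hull of the indicator vectors `indic B`, `B ∈ N`;
* `IsMatroidSubdivision M S` : every member of `S` is (the family of bases of) a matroid, the union
  of the polytopes of the members of `S` is `poly M`, and for all `N, N' ∈ S` the intersection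
  `poly N ∩ poly N'` is a (possibly empty) exposed face of `poly N` (so, by symmetry, also of
  `poly N'`).
-/

namespace Pool.Agent.Results.MP_da28a5_co.PGIndecomposable

open Pool.Agent.V11152.MatroidSubdiv Pool.Agent.V11152.ProjGeom
open scoped LinearAlgebra.Projectivization

/-- The points of the projective geometry `PG(r - 1, q)`: the one-dimensional subspaces of
`F ^ r`. -/
abbrev Pts (F : Type) [Field F] (r : ℕ) : Type := ℙ F (Fin r → F)

noncomputable instance instFintypePts (F : Type) [Field F] [Finite F] (r : ℕ) :
    Fintype (Pts F r) := Fintype.ofFinite _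

noncomputable instance instDecEqPts (F : Type) [Field F] (r : ℕ) : DecidableEq (Pts F r) :=
  Classical.decEq _

open Classical in
/-- The bases of the matroid `PG(r - 1, q)`: the sets of `r` points with linearly independent
representatives. -/
noncomputable def PG (F : Type) [Field F] [Finite F] (r : ℕ) : Finset (Finset (Pts F r)) :=
  Finset.univ.filter
    (fun B => B.card = r ∧ LinearIndependent F (fun p : B => (p : Pts F r).rep))

/-- `M` is indecomposable: in every matroid subdivision of `poly M` one of the cells is `poly M`
itself, and all other cells are faces of `poly M` -/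
def Indecomposable {E : Type} [DecidableEq E] (M : Finset (Finset E)) : Prop :=
  ∀ S : Set (Finset (Finset E)), IsMatroidSubdivision M S →
    M ∈ S ∧ ∀ N ∈ S, IsExposed ℝ (poly M) (poly N)

lemma mem_PG {F : Type} [Field F] [Finite F] {r : ℕ} (B : Finset (Pts F r)) :
    B ∈ PG F r ↔ B.card = r ∧ W (fun p : Pts F r => p.rep) B = ⊤ := by
  classical
  unfold PG
  rw [Finset.mem_filter]
  simp only [Finset.mem_univ, true_and]
  apply and_congr_right
  intro hB
  have hr : Set.range (fun p : B => (p : Pts F r).rep) = (fun p : Pts F r => p.rep) '' (B : Set _) := by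
    ext v
    constructor
    · rintro ⟨p, rfl⟩; exact ⟨p.1, p.2, rfl⟩
    · rintro ⟨p, hp, rfl⟩; exact ⟨⟨p, hp⟩, rfl⟩
  rw [linearIndependent_iff_card_eq_finrank_span, hr]
  unfold W Set.finrank
  rw [Fintype.card_coe, hB]
  constructor
  · intro h
    apply Submodule.eq_top_of_finrank_eq
    rw [← h, Module.finrank_fin_fun]
  · intro h
    rw [h, finrank_top, Module.finrank_fin_fun]

/-- **Theorem.** For every finite field `F` and every `r ≥ 3` the family `PG F r` is the family of
bases of a matroid, and this matroid is indecomposable. -/
theorem result : ∀ (F : Type) [Field F] [Finite F] (r : ℕ), 3 ≤ r →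
    IsMatroid (PG F r) ∧ Indecomposable (PG F r) := by
  intro F _ _ r hr
  classical
  let pt : (Fin r → F) → Pts F r := fun v =>
    if h : v ≠ 0 then Projectivization.mk F v h else
      Projectivization.mk F (Pi.single ⟨0, by omega⟩ 1) (by
        intro h
        have := congrFun h ⟨0, by omega⟩
        simp at this)
  have hG : Geo (fun p : Pts F r => p.rep) pt := by
    refine ⟨?_, ?_, ?_⟩
    · intro v hv
      simp only [pt, dif_pos hv]
      rw [← Projectivization.submodule_eq, Projectivization.submodule_mk]
    · intro e
      simp only [pt, dif_pos e.rep_nonzero]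
      exact e.mk_rep
    · intro e
      exact e.rep_nonzero
  haveI : Nonempty (Pts F r) := ⟨pt 0⟩
  obtain ⟨B, hB, _⟩ := exists_base hG mem_PG (pt 0)
  refine ⟨isMatroid mem_PG ⟨B, hB⟩, ?_⟩
  intro S hS
  have h1 : PG F r ∈ S := mem_subdivision hG mem_PG hr hS
  refine ⟨h1, ?_⟩
  intro N hN
  have h2 := hS.2.2 _ h1 N hN
  rwa [Set.inter_eq_self_of_subset_right (poly_mono (cell_subset hS hN))] at h2

end Pool.Agent.Results.MP_da28a5_co.PGIndecomposable
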